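import Pool.Agent.H43.FreeSet.AllN

set_option autoImplicit false

open Cardinal

namespace Pool.Agent.Results.MP_e36232_lc.CountableCofinality

/-- Let `κ` be an infinite cardinal of countable cofinality (for instance `κ = ℵ₀`), `n ≥ 1` and
`|S| = κ^(n+)`. Then there is a set mapping `f` on `S` of order `κ` (it is defined on all finite
subsets of `S`) without free set of size `κ⁺⁺` for the `n`-element subsets, and more generally for
the `m`-element subsets whenever `m ≥ n`. No form of GCH is assumed. -/
theorem result :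
    ∀ κ : Cardinal.{0}, ℵ₀ ≤ κ → κ.ord.cof = ℵ₀ → ∀ n : ℕ, 1 ≤ n →
    ∀ S : Type, #S = Order.succ^[n] κ →
    ∃ f : Finset S → Set S,
      (∀ X : Finset S, #(f X) < κ ∧ Disjoint (X : Set S) (f X)) ∧
      ∀ m : ℕ, n ≤ m → ∀ T : Set S,
        (∀ X : Finset S, X.card = m → (X : Set S) ⊆ T → Disjoint T (f X)) →
        #T < Order.succ (Order.succ κ) := by
  intro κ hκ hcof n hn S hS
  exact H43.FreeSet.allN hκ hcof hn S hS

end Pool.Agent.Results.MP_e36232_lc.CountableCofinality
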