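import Pool.Agent.H45.TH.Fin

set_option autoImplicit false

open Cardinal Order

namespace Pool.Agent.Results.MP_e36232_lc.ThirdBound

open Pool.Agent.H46.FS

/-- Let `κ` be an infinite cardinal, `m ≥ 2`, `j ≤ n`, let `2^(κ^((j+i)+)) = κ^((j+i+1)+)` for
`1 ≤ i < m` and let square hold at `κ^(i+)` for `j + 3m - 3 ≤ i < n`. Then on every set of size
`κ^(n+)` there is one set mapping with finite values for which, for every `a ≥ n - j` (in
particular for `a = n`), all sets which are free for the `a`-element subsets have size less than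
`κ^((j+m)+)`.

* `j = 0`, `m = 2`, `n = 3`: no square is assumed, and this is question Q1 for `n = 3`;
* `j = 0`, `m = 2`, `n ≥ 4`: question Q1 for `n` under square at `κ^(i+)`, `3 ≤ i < n`;
* `j = 0`, `n ≤ 3m - 3`: no square is assumed; so under GCH there is, for all `n` and all `κ`, a
  mapping of type `n` on `κ^(n+)` without free set of size `κ^((⌈n/3⌉+1)+)`. -/
theorem result :
    ∀ n j m : ℕ, j ≤ n → 2 ≤ m → ∀ κ : Cardinal.{0}, ℵ₀ ≤ κ →
    (∀ i : ℕ, 1 ≤ i → i < m → (2 : Cardinal.{0}) ^ (succ^[j + i] κ) = succ^[j + i + 1] κ) →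
    (∀ i : ℕ, j + 3 * m - 3 ≤ i → i < n → Square (succ^[i] κ)) →
    ∀ S : Type, #S = succ^[n] κ →
    ∃ f : Finset S → Set S,
      (∀ X : Finset S, (f X).Finite ∧ Disjoint (X : Set S) (f X)) ∧
      ∀ a : ℕ, n - j ≤ a → ∀ T : Set S,
        (∀ X : Finset S, X.card = a → (X : Set S) ⊆ T → Disjoint T (f X)) →
        #T < succ^[j + m] κ := by
  intro n j m hnj hm κ hκ h2 hsq S hS
  have hκj : ℵ₀ ≤ succ^[j] κ := H45.TH.aleph0_le_iter hκ j
  have hit : ∀ i : ℕ, succ^[i] (succ^[j] κ) = succ^[j + i] κ := fun i => by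
    rw [← Function.iterate_add_apply succ i j κ, Nat.add_comm]
  have h := H45.TH.exists_map hκj hm (fun i h1 hi => by rw [hit, hit]; exact h2 i h1 hi) (n - j)
    (fun i hi hin => by rw [hit]; exact hsq (j + i) (by omega) (by omega)) S
    (by rw [hit, hS]; congr 2; omega)
  rwa [hit] at h

end Pool.Agent.Results.MP_e36232_lc.ThirdBound
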